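import Mathlib
import Pool.Agent.LibTri47.Whole

set_option autoImplicit false

namespace Pool.Agent.Results.MP_096a05_co.FullDescription

open LibProf47 LibTri47 Set

/-- The complete description of the 3-profile.

Write `p`, `q`, `t` for the edge, cherry (= mean squared degree) and triangle density.  By
complementation (which reverses the tuple) one may assume `p ≤ 1 / 2`.  Then `(p, q, t)` occurs if
and only if

* `p ^ 2 ≤ q` (quasiregular graphs), `0 ≤ t` (triangle free graphs), `t ≤ q` (disjoint unions of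
  cliques),
* `Upp p q t`: for `t ≤ tstar p` this is `q ≤ (p + t) / 2` (complete multipartite graphs), for
  `t ≥ tstar p` it is the bound given by the better of two threshold graphs,
* `t ≤ Tc p q c`, the bound in the near regular part; here `c` is the unique real number with
  `IsC p q c`: either `c = cc p` or `c` is the root in `[p, cc p]` of the cubic
  `(k - 1) c (c - p) ^ 2 = (q - p ^ 2) (1 - (k - 1) c)`, where `k = ⌊1 / p⌋`.
  The extremal graphs consist of `k - 1` cliques of size `c` and two smaller cliques joined by a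
  quasirandom bipartite graph.

The second part says that the bound `Tc` is attained for all `q ≤ hh p`, the third part gives the
largest `q` for given `p` and `t`, for all `p` in `(0, 1)`. -/
theorem result :
    (∀ d : Fin 4 → ℝ, d ∈ Profile ↔ d = ![1, 0, 0, 0] ∨ d = ![0, 0, 0, 1] ∨
      ∃ p q t : ℝ, (0 < p ∧ p ≤ 1 / 2 ∧ p ^ 2 ≤ q ∧ 0 ≤ t ∧ t ≤ q ∧ Upp p q t ∧
        ∀ c, IsC p q c → t ≤ Tc p q c) ∧
        (d = ![1 - 3 * p + 3 * q - t, 3 * (p - 2 * q + t), 3 * (q - t), t] ∨
          d = ![t, 3 * (q - t), 3 * (p - 2 * q + t), 1 - 3 * p + 3 * q - t])) ∧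
    (∀ p q : ℝ, 0 < p → p ≤ 1 / 2 → p ^ 2 ≤ q → (∃! c, IsC p q c) ∧
      (q ≤ hh p → ∀ c, IsC p q c → IsGreatest {t | pt p q t ∈ Profile} (Tc p q c))) ∧
    (∀ p : ℝ, 0 < p → p < 1 →
      (∀ t, razb p ≤ t → t ≤ tstar p → IsGreatest {q | pt p q t ∈ Profile} ((p + t) / 2)) ∧
      (∀ t, tstar p ≤ t → t ≤ √p ^ 3 →
        (∃! v : ℝ × ℝ, F1 p t v.1 v.2) ∧ (∃! v : ℝ × ℝ, F2 p t v.1 v.2) ∧
        ∀ x a b z, F1 p t x a → F2 p t b z →
          IsGreatest {q | pt p q t ∈ Profile} (max (q1 x a) (q2 b z)))) :=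
  ⟨fun d => profile_iff d, fun _ _ hp0 hp hq1 =>
    ⟨isC_unique hp0 hp hq1, fun hq2 _ hc => near_sheet hp0 hp hq1 hq2 hc⟩,
    fun _ hp0 hp1 => upper_sheet hp0 hp1⟩

end Pool.Agent.Results.MP_096a05_co.FullDescription
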